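import Pool.Agent.Q267.GBP.PartA
import Pool.Agent.Q267.GBP.PartB
import Pool.Agent.Q267.GBP.PartC
import Mathlib.Analysis.SpecialFunctions.Log.Basic
import Mathlib.Analysis.SpecialFunctions.Pow.Asymptotics
import Mathlib.Analysis.Complex.ExponentialBounds

/-!
# The pendant-edge dichotomy for graph bootstrap percolation fails

`H = W_6` is the wheel with six rim vertices and `u` is its hub.  Then `M_H(n)` is at least
linear in `n`, whereas `M_{H^{u+}}(n)` is unbounded but at most `log_2 n + O(1)`.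
-/

namespace Pool.Agent.Results.MP_7332c2_co.WheelPendant

open Pool.Agent.Q267.GBP SimpleGraph Filter

/-- The dichotomy of Q1: for every connected `H` and every vertex `u`, either
`M_{H^{u+}}(n) = O(1)` or `M_{H^{u+}}(n) = Θ(M_H(n))`. -/
def Dichotomy : Prop :=
  ∀ (k : ℕ) (H : SimpleGraph (Fin k)) (u : Fin k), H.Connected →
    (∃ C N : ℕ, ∀ n ≥ N, maxTime (addPendant H u) n ≤ C) ∨
    (∃ c C : ℝ, 0 < c ∧ c ≤ C ∧ ∃ N : ℕ, ∀ n ≥ N,
      c * (maxTime H n : ℝ) ≤ (maxTime (addPendant H u) n : ℝ) ∧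
      (maxTime (addPendant H u) n : ℝ) ≤ C * (maxTime H n : ℝ))

theorem connected_W6 : W6.Connected := by
  have hub : ∀ i : Fin 7, i ≠ 6 → W6.Adj 6 i := by decide
  have hr : ∀ i : Fin 7, W6.Reachable 6 i := by
    intro i
    by_cases hi : i = 6
    · rw [hi]
    · exact (hub i hi).reachable
  exact ⟨fun i j => (hr i).symm.trans (hr j)⟩

theorem unbounded (C N : ℕ) : ∃ n, N ≤ n ∧ C < maxTime (addPendant W6 6) n := by
  obtain ⟨n, hn⟩ := partB (C + ∑ m ∈ Finset.range N, maxTime (addPendant W6 6) m)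
  refine ⟨n, ?_, by omega⟩
  by_contra hlt
  have : maxTime (addPendant W6 6) n ≤ ∑ m ∈ Finset.range N, maxTime (addPendant W6 6) m :=
    Finset.single_le_sum (f := fun m => maxTime (addPendant W6 6) m) (fun _ _ => Nat.zero_le _)
      (Finset.mem_range.2 (by omega))
  omega

theorem little (c : ℝ) (hc : 0 < c) :
    ∃ N : ℕ, ∀ n ≥ N, (maxTime (addPendant W6 6) n : ℝ) < c * (maxTime W6 n : ℝ) := by
  have hlog : ∀ᶠ x : ℝ in atTop, |Real.log x| ≤ (c / 16) * |x| := by
    have := (Real.isLittleO_log_id_atTop).def (show (0 : ℝ) < c / 16 by positivity)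
    simpa using this
  obtain ⟨X, hX⟩ := eventually_atTop.1 hlog
  obtain ⟨N1, hN1⟩ := exists_nat_gt X
  obtain ⟨N2, hN2⟩ := exists_nat_gt ((3613 + c) * 8 / c)
  refine ⟨max (max N1 N2) 14, fun n hn => ?_⟩
  have hn1 : N1 ≤ n := le_trans (le_trans (le_max_left _ _) (le_max_left _ _)) hn
  have hn2 : N2 ≤ n := le_trans (le_trans (le_max_right _ _) (le_max_left _ _)) hn
  have hn3 : 14 ≤ n := le_trans (le_max_right _ _) hn
  have hnpos : (0 : ℝ) < n := by exact_mod_cast (by omega : 0 < n)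
  have hA := partA n hn3
  have hC := partC n (by omega)
  have hlogn : Real.log n ≤ (c / 16) * n := by
    have h1 := hX (n : ℝ) (by
      have : (N1 : ℝ) ≤ n := by exact_mod_cast hn1
      linarith)
    rw [abs_of_pos hnpos] at h1
    exact (le_abs_self _).trans h1
  have hnatlog : (Nat.log 2 n : ℝ) ≤ 2 * Real.log n := by
    have h1 : (2 : ℝ) ^ (Nat.log 2 n) ≤ n := by
      exact_mod_cast Nat.pow_log_le_self 2 (by omega : n ≠ 0)
    have h2 : Real.log ((2 : ℝ) ^ (Nat.log 2 n)) ≤ Real.log n :=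
      Real.log_le_log (by positivity) h1
    rw [Real.log_pow] at h2
    have h3 : (1 : ℝ) / 2 ≤ Real.log 2 := by
      have := Real.log_two_gt_d9
      linarith
    have h4 : (0 : ℝ) ≤ Nat.log 2 n := Nat.cast_nonneg _
    nlinarith
  have hAr : ((n : ℝ) - 1) / 4 ≤ (maxTime W6 n : ℝ) := by
    have h1 : n ≤ 4 * maxTime W6 n + 1 := by omega
    have h2 : (n : ℝ) ≤ 4 * (maxTime W6 n : ℝ) + 1 := by exact_mod_cast h1
    linarith
  have hCr : (maxTime (addPendant W6 6) n : ℝ) ≤ (Nat.log 2 n : ℝ) + 3612 := by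
    exact_mod_cast hC
  have hbig : (3613 + c) * 8 < c * n := by
    have h1 : (N2 : ℝ) ≤ n := by exact_mod_cast hn2
    have h2 : (3613 + c) * 8 / c < n := lt_of_lt_of_le hN2 h1
    rw [div_lt_iff₀ hc] at h2
    linarith
  have h5 : c * (((n : ℝ) - 1) / 4) ≤ c * (maxTime W6 n : ℝ) :=
    mul_le_mul_of_nonneg_left hAr hc.le
  nlinarith

/-- The wheel `W_6` with its hub: `M_{H^{u+}}` is unbounded and is `o(M_H)`; in fact
`M_H(n) ≥ (n-1)/4` and `M_{H^{u+}}(n) ≤ log_2 n + 3612`.  So the dichotomy of Q1 fails. -/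
theorem result :
    (W6.Connected ∧
      (∀ C N : ℕ, ∃ n ≥ N, C < maxTime (addPendant W6 6) n) ∧
      (∀ c : ℝ, 0 < c →
        ∃ N : ℕ, ∀ n ≥ N, (maxTime (addPendant W6 6) n : ℝ) < c * (maxTime W6 n : ℝ)) ∧
      (∀ n ≥ 14, n ≤ 4 * maxTime W6 n + 1) ∧
      (∀ n ≥ 14, maxTime (addPendant W6 6) n ≤ Nat.log 2 n + 3612)) ∧
    ¬ Dichotomy := by
  refine ⟨⟨connected_W6, fun C N => unbounded C N, little, ?_, ?_⟩, ?_⟩
  · intro n hn
    have := partA n hn
    omega
  · intro n hn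
    exact partC n (by omega)
  · intro hD
    rcases hD 7 W6 6 connected_W6 with ⟨C, N, h⟩ | ⟨c, C, hc, -, N, h⟩
    · obtain ⟨n, hn, hlt⟩ := unbounded C N
      exact absurd (h n hn) (not_le.2 hlt)
    · obtain ⟨N', h'⟩ := little c hc
      have h1 := (h (max N N') (le_max_left _ _)).1
      have h2 := h' (max N N') (le_max_right _ _)
      linarith

end Pool.Agent.Results.MP_7332c2_co.WheelPendant
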